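import Mathlib

/-!
# Uniform integrability tools for `S_D` and `S_H` (project EE of helper153)
-/

set_option autoImplicit false

open MeasureTheory

namespace Run7.h298.EE

/-- The singular majorant. -/
noncomputable def phi (ρ : ℝ) (s : ℂ) : ℝ := if ‖s‖ ≤ ρ then ‖s‖ ^ (-(3 / 2) : ℝ) else 0

lemma phi_nonneg (ρ : ℝ) (s : ℂ) : 0 ≤ phi ρ s := by
  unfold phi; split_ifs
  · positivity
  · exact le_refl _

lemma integrable_phi {ρ : ℝ} (hρ : 0 < ρ) : Integrable (phi ρ) := by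
  have h := integrable_fun_norm_addHaar (μ := (volume : Measure ℂ))
    (f := fun y : ℝ => if y ≤ ρ then y ^ (-(3 / 2) : ℝ) else 0)
  refine h.2 ?_
  have hd : Module.finrank ℝ ℂ - 1 = 1 := by simp
  rw [hd]
  have h1 : IntegrableOn (fun y : ℝ => y ^ (-(1 / 2) : ℝ)) (Set.Ioc 0 ρ) := by
    have := intervalIntegral.intervalIntegrable_rpow' (a := 0) (b := ρ) (r := -(1 / 2))
      (by norm_num)
    rwa [intervalIntegrable_iff_integrableOn_Ioc_of_le hρ.le] at this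
  have h2 : IntegrableOn ((Set.Ioc 0 ρ).indicator (fun y : ℝ => y ^ (-(1 / 2) : ℝ))) (Set.Ioi 0) := by
    refine Integrable.integrableOn ?_
    exact (integrable_indicator_iff measurableSet_Ioc).2 h1
  refine h2.congr_fun ?_ measurableSet_Ioi
  intro y hy
  have hy0 : (0 : ℝ) < y := hy
  by_cases hyρ : y ≤ ρ
  · rw [Set.indicator_of_mem (show y ∈ Set.Ioc 0 ρ from ⟨hy0, hyρ⟩)]
    simp only [hyρ, if_true, smul_eq_mul, pow_one]
    rw [← Real.rpow_one_add' hy0.le (by norm_num)]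
    norm_num
  · rw [Set.indicator_of_notMem (fun h => hyρ h.2)]
    simp [hyρ]

/-- The majorant. -/
noncomputable def Maj {ι : Type} [Fintype ι] (ρ : ℝ) (r : ι → ℂ) (t : ℂ) : ℝ :=
  (1 + ‖t‖) ^ (-(3 : ℝ)) + ∑ i, phi ρ (t - r i)

lemma integrable_tail : Integrable (fun t : ℂ => (1 + ‖t‖) ^ (-(3 : ℝ))) := by
  refine integrable_one_add_norm ?_
  rw [Complex.finrank_real_complex]
  norm_num

variable {ι : Type} [Fintype ι]

lemma integrable_Maj {ρ : ℝ} (hρ : 0 < ρ) (r : ι → ℂ) : Integrable (Maj ρ r) := by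
  refine integrable_tail.add (integrable_finsetSum _ fun i _ => ?_)
  exact (integrable_phi hρ).comp_sub_right (r i)

lemma integral_Maj {ρ : ℝ} (hρ : 0 < ρ) (r : ι → ℂ) :
    ∫ t, Maj ρ r t = (∫ t : ℂ, (1 + ‖t‖) ^ (-(3 : ℝ))) + Fintype.card ι * ∫ s, phi ρ s := by
  unfold Maj
  rw [integral_add integrable_tail (integrable_finsetSum _ fun i _ =>
    (integrable_phi hρ).comp_sub_right (r i))]
  congr 1
  rw [integral_finsetSum _ fun i _ => (integrable_phi hρ).comp_sub_right (r i)]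
  have : ∀ i : ι, ∫ t, phi ρ (t - r i) = ∫ s, phi ρ s := fun i =>
    integral_sub_right_eq_self (phi ρ) (r i)
  simp [this]

lemma Maj_nonneg (ρ : ℝ) (r : ι → ℂ) (t : ℂ) : 0 ≤ Maj ρ r t := by
  unfold Maj
  have : 0 ≤ ∑ i, phi ρ (t - r i) := Finset.sum_nonneg fun i _ => phi_nonneg _ _
  positivity

lemma abs_log_le {x : ℝ} (hx : 0 < x) {R : ℝ} (hR : x ≤ 2 * R) :
    |Real.log x| ≤ 2 * (2 * R + 1) * x ^ (-(1 / 2) : ℝ) := by
  have h1 : Real.log x ≤ x ^ (1 / 2 : ℝ) / (1 / 2) := Real.log_le_rpow_div hx.le (by norm_num)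
  have h2 : Real.log x⁻¹ ≤ x⁻¹ ^ (1 / 2 : ℝ) / (1 / 2) :=
    Real.log_le_rpow_div (inv_pos.2 hx).le (by norm_num)
  rw [Real.log_inv] at h2
  have e1 : x⁻¹ ^ (1 / 2 : ℝ) = x ^ (-(1 / 2) : ℝ) := by
    rw [Real.inv_rpow hx.le, Real.rpow_neg hx.le]
  have e2 : x ^ (1 / 2 : ℝ) = x * x ^ (-(1 / 2) : ℝ) := by
    rw [← Real.rpow_one_add' hx.le (by norm_num)]
    norm_num
  rw [e1] at h2
  rw [e2] at h1
  have hp : 0 < x ^ (-(1 / 2) : ℝ) := Real.rpow_pos_of_pos hx _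
  rw [abs_le]
  constructor
  · nlinarith [mul_pos (show 0 < R by linarith) hp]
  · have := mul_le_mul_of_nonneg_right hR hp.le
    nlinarith

lemma mul_le_add {x y : ℝ} (hx : 0 < x) (hy : 0 < y) :
    y⁻¹ * x ^ (-(1 / 2) : ℝ) ≤ y ^ (-(3 / 2) : ℝ) + x ^ (-(3 / 2) : ℝ) := by
  have ex : ∀ z : ℝ, 0 < z → z ^ (-(3 / 2) : ℝ) = z⁻¹ * z ^ (-(1 / 2) : ℝ) := by
    intro z hz
    rw [← Real.rpow_neg_one, ← Real.rpow_add hz]
    norm_num
  rw [ex x hx, ex y hy]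
  rcases le_total x y with h | h
  · have h1 : y⁻¹ ≤ x⁻¹ := inv_anti₀ hx h
    have h2 := mul_le_mul_of_nonneg_right h1 (Real.rpow_pos_of_pos hx (-(1 / 2))).le
    have h3 : 0 ≤ y⁻¹ * y ^ (-(1 / 2) : ℝ) := by positivity
    linarith
  · have h1 : x ^ (-(1 / 2) : ℝ) ≤ y ^ (-(1 / 2) : ℝ) :=
      Real.rpow_le_rpow_of_nonpos hy h (by norm_num)
    have h2 := mul_le_mul_of_nonneg_left h1 (inv_pos.2 hy).le
    have h3 : 0 ≤ x⁻¹ * x ^ (-(1 / 2) : ℝ) := by positivity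
    linarith

/-- The uniform pointwise bound. -/
lemma log_mul_le {r : ι → ℂ} {R C1 C2 : ℝ} (hR : 0 < R) (hr : ∀ i, ‖r i‖ ≤ R / 2) (hC1 : 0 ≤ C1)
    (hC2 : 0 ≤ C2) {t : ℂ} (ht : ∀ i, t ≠ r i) {h : ℝ} (hh : 0 ≤ h)
    (ha : ‖t‖ ≤ R → h ≤ C1 * ∑ i, ‖t - r i‖⁻¹)
    (hb : R < ‖t‖ → h ≤ C2 * (1 + ‖t‖) ^ (-(3 : ℝ))) (i1 i2 : ι) :
    |Real.log (‖t - r i1‖ / ‖t - r i2‖)| * h ≤
      (4 * C1 * (2 * R + 1) * (1 + Fintype.card ι) + 2 * C2) * Maj (2 * R) r t := by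
  have hpos : ∀ i, 0 < ‖t - r i‖ := fun i => norm_pos_iff.2 (sub_ne_zero.2 (ht i))
  have hn : (0 : ℝ) ≤ Fintype.card ι := Nat.cast_nonneg _
  have htail : 0 ≤ (1 + ‖t‖) ^ (-(3 : ℝ)) := by positivity
  have hsum0 : 0 ≤ ∑ i, phi (2 * R) (t - r i) := Finset.sum_nonneg fun i _ => phi_nonneg _ _
  rcases le_or_gt ‖t‖ R with h1 | h1
  · have hy : ∀ i, ‖t - r i‖ ≤ 2 * R := by
      intro i
      calc ‖t - r i‖ ≤ ‖t‖ + ‖r i‖ := norm_sub_le _ _
        _ ≤ 2 * R := by linarith [hr i]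
    have hphi : ∀ i, phi (2 * R) (t - r i) = ‖t - r i‖ ^ (-(3 / 2) : ℝ) := by
      intro i
      rw [phi, if_pos (hy i)]
    set S : ℝ := ∑ i, ‖t - r i‖ ^ (-(3 / 2) : ℝ) with hS
    have hSS : ∑ i, phi (2 * R) (t - r i) = S := Finset.sum_congr rfl fun i _ => hphi i
    have hS0 : 0 ≤ S := hSS ▸ hsum0
    have hlog : |Real.log (‖t - r i1‖ / ‖t - r i2‖)| ≤
        2 * (2 * R + 1) * (‖t - r i1‖ ^ (-(1 / 2) : ℝ) + ‖t - r i2‖ ^ (-(1 / 2) : ℝ)) := by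
      rw [Real.log_div (hpos i1).ne' (hpos i2).ne']
      refine (abs_sub _ _).trans ?_
      have a1 := abs_log_le (hpos i1) (hy i1)
      have a2 := abs_log_le (hpos i2) (hy i2)
      linarith
    have hterm : ∀ j : ι, (∑ i, ‖t - r i‖⁻¹) * ‖t - r j‖ ^ (-(1 / 2) : ℝ) ≤
        (1 + Fintype.card ι) * S := by
      intro j
      rw [Finset.sum_mul]
      calc ∑ i, ‖t - r i‖⁻¹ * ‖t - r j‖ ^ (-(1 / 2) : ℝ)
          ≤ ∑ i, (‖t - r i‖ ^ (-(3 / 2) : ℝ) + ‖t - r j‖ ^ (-(3 / 2) : ℝ)) :=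
            Finset.sum_le_sum fun i _ => mul_le_add (hpos j) (hpos i)
        _ = S + Fintype.card ι * ‖t - r j‖ ^ (-(3 / 2) : ℝ) := by
            rw [Finset.sum_add_distrib]; simp [hS]
        _ ≤ S + Fintype.card ι * S := by
            have : ‖t - r j‖ ^ (-(3 / 2) : ℝ) ≤ S :=
              Finset.single_le_sum (f := fun i => ‖t - r i‖ ^ (-(3 / 2) : ℝ))
                (fun i _ => by positivity) (Finset.mem_univ j)
            have := mul_le_mul_of_nonneg_left this hn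
            linarith
        _ = (1 + Fintype.card ι) * S := by ring
    have hx1 : 0 ≤ ‖t - r i1‖ ^ (-(1 / 2) : ℝ) := by positivity
    have hx2 : 0 ≤ ‖t - r i2‖ ^ (-(1 / 2) : ℝ) := by positivity
    calc |Real.log (‖t - r i1‖ / ‖t - r i2‖)| * h
        ≤ (2 * (2 * R + 1) * (‖t - r i1‖ ^ (-(1 / 2) : ℝ) + ‖t - r i2‖ ^ (-(1 / 2) : ℝ))) *
          (C1 * ∑ i, ‖t - r i‖⁻¹) :=
          mul_le_mul hlog (ha h1) hh (by positivity)
      _ = 2 * (2 * R + 1) * C1 * ((∑ i, ‖t - r i‖⁻¹) * ‖t - r i1‖ ^ (-(1 / 2) : ℝ) +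
          (∑ i, ‖t - r i‖⁻¹) * ‖t - r i2‖ ^ (-(1 / 2) : ℝ)) := by ring
      _ ≤ 2 * (2 * R + 1) * C1 * ((1 + Fintype.card ι) * S + (1 + Fintype.card ι) * S) := by
          refine mul_le_mul_of_nonneg_left (add_le_add (hterm i1) (hterm i2)) (by positivity)
      _ = (4 * C1 * (2 * R + 1) * (1 + Fintype.card ι)) * S := by ring
      _ ≤ (4 * C1 * (2 * R + 1) * (1 + Fintype.card ι) + 2 * C2) * Maj (2 * R) r t := by
          unfold Maj
          rw [hSS]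
          refine mul_le_mul ?_ ?_ hS0 (by positivity)
          · linarith
          · linarith
  · have hlow : ∀ i, ‖t‖ / 2 ≤ ‖t - r i‖ := by
      intro i
      have := norm_sub_norm_le t (r i)
      linarith [hr i]
    have hup : ∀ i, ‖t - r i‖ ≤ 3 / 2 * ‖t‖ := by
      intro i
      have := norm_sub_le t (r i)
      linarith [hr i]
    have ht0 : 0 < ‖t‖ := hR.trans h1
    have hlog : |Real.log (‖t - r i1‖ / ‖t - r i2‖)| ≤ 2 := by
      have hl : ∀ i j, Real.log (‖t - r i‖ / ‖t - r j‖) ≤ 2 := by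
        intro i j
        have hq : ‖t - r i‖ / ‖t - r j‖ ≤ 3 := by
          rw [div_le_iff₀ (hpos j)]
          linarith [hup i, hlow j]
        have := Real.log_le_sub_one_of_pos (div_pos (hpos i) (hpos j))
        linarith
      rw [abs_le]
      refine ⟨?_, hl i1 i2⟩
      have := hl i2 i1
      rw [← inv_div, Real.log_inv] at this
      linarith
    calc |Real.log (‖t - r i1‖ / ‖t - r i2‖)| * h ≤ 2 * (C2 * (1 + ‖t‖) ^ (-(3 : ℝ))) :=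
          mul_le_mul hlog (hb h1) hh (by norm_num)
      _ = (2 * C2) * (1 + ‖t‖) ^ (-(3 : ℝ)) := by ring
      _ ≤ (4 * C1 * (2 * R + 1) * (1 + Fintype.card ι) + 2 * C2) * Maj (2 * R) r t := by
          unfold Maj
          refine mul_le_mul ?_ ?_ htail (by positivity)
          · have : 0 ≤ 4 * C1 * (2 * R + 1) * (1 + Fintype.card ι) := by positivity
            linarith
          · linarith

/-- The bound without the logarithm. -/
lemma le_Maj {r : ι → ℂ} {R C1 C2 : ℝ} (hR : 0 < R) (hr : ∀ i, ‖r i‖ ≤ R / 2) (hC1 : 0 ≤ C1)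
    (hC2 : 0 ≤ C2) {t : ℂ} (ht : ∀ i, t ≠ r i) {h : ℝ}
    (ha : ‖t‖ ≤ R → h ≤ C1 * ∑ i, ‖t - r i‖⁻¹)
    (hb : R < ‖t‖ → h ≤ C2 * (1 + ‖t‖) ^ (-(3 : ℝ))) :
    h ≤ (C1 * (2 * R + 1) + C2) * Maj (2 * R) r t := by
  have hpos : ∀ i, 0 < ‖t - r i‖ := fun i => norm_pos_iff.2 (sub_ne_zero.2 (ht i))
  have htail : 0 ≤ (1 + ‖t‖) ^ (-(3 : ℝ)) := by positivity
  have hsum0 : 0 ≤ ∑ i, phi (2 * R) (t - r i) := Finset.sum_nonneg fun i _ => phi_nonneg _ _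
  rcases le_or_gt ‖t‖ R with h1 | h1
  · have hy : ∀ i, ‖t - r i‖ ≤ 2 * R := by
      intro i
      calc ‖t - r i‖ ≤ ‖t‖ + ‖r i‖ := norm_sub_le _ _
        _ ≤ 2 * R := by linarith [hr i]
    have hphi : ∀ i, phi (2 * R) (t - r i) = ‖t - r i‖ ^ (-(3 / 2) : ℝ) := by
      intro i
      rw [phi, if_pos (hy i)]
    have hterm : ∀ i, ‖t - r i‖⁻¹ ≤ (2 * R + 1) * phi (2 * R) (t - r i) := by
      intro i
      rw [hphi]
      have hx := hpos i
      set x := ‖t - r i‖ with hxdef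
      have e1 : x⁻¹ = x ^ (1 / 2 : ℝ) * x ^ (-(3 / 2) : ℝ) := by
        rw [← Real.rpow_add hx]
        norm_num
        exact (Real.rpow_neg_one x).symm
      have e2 : x ^ (1 / 2 : ℝ) ≤ 2 * R + 1 := by
        rcases le_total x 1 with h2 | h2
        · have : x ^ (1 / 2 : ℝ) ≤ 1 := Real.rpow_le_one hx.le h2 (by norm_num)
          linarith
        · have : x ^ (1 / 2 : ℝ) ≤ x ^ (1 : ℝ) := Real.rpow_le_rpow_of_exponent_le h2 (by norm_num)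
          rw [Real.rpow_one] at this
          linarith [hy i]
      rw [e1]
      exact mul_le_mul_of_nonneg_right e2 (by positivity)
    calc h ≤ C1 * ∑ i, ‖t - r i‖⁻¹ := ha h1
      _ ≤ C1 * ∑ i, (2 * R + 1) * phi (2 * R) (t - r i) :=
          mul_le_mul_of_nonneg_left (Finset.sum_le_sum fun i _ => hterm i) hC1
      _ = (C1 * (2 * R + 1)) * ∑ i, phi (2 * R) (t - r i) := by rw [← Finset.mul_sum]; ring
      _ ≤ _ := by
          unfold Maj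
          refine mul_le_mul ?_ ?_ hsum0 (by positivity)
          · linarith
          · linarith
  · calc h ≤ C2 * (1 + ‖t‖) ^ (-(3 : ℝ)) := hb h1
      _ ≤ _ := by
          unfold Maj
          refine mul_le_mul ?_ ?_ htail (by positivity)
          · have : 0 ≤ C1 * (2 * R + 1) := by positivity
            linarith
          · linarith

/-- A real number is at most the tail of the majorant. -/
lemma tail_of {t : ℂ} (ht : 1 ≤ ‖t‖) {h C : ℝ} (hC : 0 ≤ C) (hh : h ≤ C / ‖t‖ ^ 3) :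
    h ≤ (8 * C) * (1 + ‖t‖) ^ (-(3 : ℝ)) := by
  have e : (1 + ‖t‖) ^ (-(3 : ℝ)) = ((1 + ‖t‖) ^ 3)⁻¹ := by
    rw [Real.rpow_neg (by positivity)]
    norm_cast
  rw [e]
  have h0 : 0 < ‖t‖ := by linarith
  have h1 : (1 + ‖t‖) ^ 3 ≤ 8 * ‖t‖ ^ 3 := by
    have : (1 + ‖t‖) ^ 3 ≤ (2 * ‖t‖) ^ 3 := pow_le_pow_left₀ (by positivity) (by linarith) 3
    calc (1 + ‖t‖) ^ 3 ≤ (2 * ‖t‖) ^ 3 := this
      _ = 8 * ‖t‖ ^ 3 := by ring
  have h2 : (8 * ‖t‖ ^ 3)⁻¹ ≤ ((1 + ‖t‖) ^ 3)⁻¹ := inv_anti₀ (by positivity) h1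
  calc h ≤ C / ‖t‖ ^ 3 := hh
    _ = 8 * C * (8 * ‖t‖ ^ 3)⁻¹ := by field_simp
    _ ≤ 8 * C * ((1 + ‖t‖) ^ 3)⁻¹ := mul_le_mul_of_nonneg_left h2 (by positivity)

/-- The nearest root. -/
lemma inv_prod_le [Nonempty ι] (r : ι → ℂ) {s : ℝ} (hs : 0 < s)
    (hsep : ∀ i j, i ≠ j → s ≤ ‖r i - r j‖) {t : ℂ} (ht : ∀ i, t ≠ r i) :
    (∏ i, ‖t - r i‖)⁻¹ ≤ (2 / s) ^ (Fintype.card ι - 1) * ∑ i, ‖t - r i‖⁻¹ := by
  classical
  have hpos : ∀ i, 0 < ‖t - r i‖ := fun i => norm_pos_iff.2 (sub_ne_zero.2 (ht i))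
  obtain ⟨i0, hi0⟩ := Finite.exists_min (fun i => ‖t - r i‖)
  have hj : ∀ j ∈ Finset.univ.erase i0, s / 2 ≤ ‖t - r j‖ := by
    intro j hj
    have hne : j ≠ i0 := Finset.ne_of_mem_erase hj
    have h1 := hsep j i0 hne
    have h2 : ‖r j - r i0‖ ≤ ‖t - r j‖ + ‖t - r i0‖ := by
      have : r j - r i0 = (t - r i0) - (t - r j) := by ring
      rw [this]
      have := norm_sub_le (t - r i0) (t - r j)
      linarith
    linarith [hi0 j]
  have h1 : ‖t - r i0‖ * (s / 2) ^ (Fintype.card ι - 1) ≤ ∏ i, ‖t - r i‖ := by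
    rw [← Finset.mul_prod_erase Finset.univ _ (Finset.mem_univ i0)]
    refine mul_le_mul_of_nonneg_left ?_ (hpos i0).le
    have : (s / 2) ^ (Fintype.card ι - 1) = ∏ _i ∈ Finset.univ.erase i0, (s / 2) := by
      rw [Finset.prod_const, Finset.card_erase_of_mem (Finset.mem_univ i0), Finset.card_univ]
    rw [this]
    exact Finset.prod_le_prod (fun i _ => by positivity) hj
  have hp : 0 < ‖t - r i0‖ * (s / 2) ^ (Fintype.card ι - 1) := by
    have := hpos i0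
    positivity
  calc (∏ i, ‖t - r i‖)⁻¹ ≤ (‖t - r i0‖ * (s / 2) ^ (Fintype.card ι - 1))⁻¹ := inv_anti₀ hp h1
    _ = (2 / s) ^ (Fintype.card ι - 1) * ‖t - r i0‖⁻¹ := by
        rw [mul_inv, ← inv_pow, inv_div, mul_comm]
    _ ≤ (2 / s) ^ (Fintype.card ι - 1) * ∑ i, ‖t - r i‖⁻¹ := by
        refine mul_le_mul_of_nonneg_left ?_ (by positivity)
        exact Finset.single_le_sum (f := fun i => ‖t - r i‖⁻¹) (fun i _ => by positivity)
          (Finset.mem_univ i0)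

lemma inv_sq_le {b t : ℂ} {s : ℝ} (hs : 0 < s) (hb : s ≤ ‖b‖) (h1 : t ≠ b) (h2 : t ≠ -b) :
    ‖t ^ 2 - b ^ 2‖⁻¹ ≤ (2 * s)⁻¹ * (‖t - b‖⁻¹ + ‖t - -b‖⁻¹) := by
  have hx : 0 < ‖t - b‖ := norm_pos_iff.2 (sub_ne_zero.2 h1)
  have hy : 0 < ‖t - -b‖ := norm_pos_iff.2 (sub_ne_zero.2 h2)
  have e : ‖t ^ 2 - b ^ 2‖ = ‖t - b‖ * ‖t - -b‖ := by
    rw [← norm_mul]; congr 1; ring
  have h3 : 2 * s ≤ ‖t - b‖ + ‖t - -b‖ := by
    have h4 : ‖(2 : ℂ) * b‖ ≤ ‖t - b‖ + ‖t - -b‖ := by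
      have : (2 : ℂ) * b = (t - -b) - (t - b) := by ring
      rw [this]
      have := norm_sub_le (t - -b) (t - b)
      linarith
    rw [norm_mul] at h4
    have : ‖(2 : ℂ)‖ = 2 := by simp
    rw [this] at h4
    linarith
  rw [e]
  have h5 : (‖t - b‖⁻¹ + ‖t - -b‖⁻¹) = (‖t - b‖ + ‖t - -b‖) * (‖t - b‖ * ‖t - -b‖)⁻¹ := by
    field_simp
    ring
  rw [h5, ← mul_assoc]
  have h6 : 1 ≤ (2 * s)⁻¹ * (‖t - b‖ + ‖t - -b‖) := by
    rw [inv_mul_eq_div, le_div_iff₀ (by positivity)]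
    linarith
  calc (‖t - b‖ * ‖t - -b‖)⁻¹ = 1 * (‖t - b‖ * ‖t - -b‖)⁻¹ := (one_mul _).symm
    _ ≤ _ := mul_le_mul_of_nonneg_right h6 (by positivity)

/-- Almost every point is not in a finite family. -/
lemma ae_ne (r : ι → ℂ) : ∀ᵐ t : ℂ, ∀ i, t ≠ r i := by
  have h : volume (Set.range r) = 0 := (Set.finite_range r).measure_zero volume
  filter_upwards [compl_mem_ae_iff.2 h] with t ht i hi
  exact ht ⟨i, hi.symm⟩

end Run7.h298.EE
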