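import Pool.Agent.Run7.h153.EE.Iface
import Pool.Agent.Run7.h298.EE.Tool

/-!
# Piece D of the project EE of helper153 (MP_b2b689_ag)
-/

set_option autoImplicit false

open MeasureTheory

namespace Run7.h298.EE

open Run7.h153.EE

lemma Jf_re (B C t : ℂ) :
    (Jf B C t).re = Real.log (‖t - 1‖ / ‖t + 1‖) / ‖Fs B C t‖ * t.re := by
  unfold Jf
  rw [Complex.re_ofReal_mul]

lemma norm_sub_one_sq (t : ℂ) : ‖t - 1‖ ^ 2 = (t.re - 1) ^ 2 + t.im ^ 2 := by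
  rw [← Complex.normSq_eq_norm_sq, Complex.normSq_apply]
  simp; ring

lemma norm_add_one_sq (t : ℂ) : ‖t + 1‖ ^ 2 = (t.re + 1) ^ 2 + t.im ^ 2 := by
  rw [← Complex.normSq_eq_norm_sq, Complex.normSq_apply]
  simp; ring

lemma log_mul_re_nonpos (t : ℂ) : Real.log (‖t - 1‖ / ‖t + 1‖) * t.re ≤ 0 := by
  have h1 := norm_sub_one_sq t
  have h2 := norm_add_one_sq t
  have n1 := norm_nonneg (t - 1)
  have n2 := norm_nonneg (t + 1)
  rcases le_total 0 t.re with h | h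
  · have hle : ‖t - 1‖ ≤ ‖t + 1‖ := by
      refine (pow_le_pow_iff_left₀ n1 n2 two_ne_zero).1 ?_
      rw [h1, h2]; nlinarith
    have : Real.log (‖t - 1‖ / ‖t + 1‖) ≤ 0 :=
      Real.log_nonpos (div_nonneg n1 n2) (div_le_one_of_le₀ hle n2)
    exact mul_nonpos_of_nonpos_of_nonneg this h
  · have hle : ‖t + 1‖ ≤ ‖t - 1‖ := by
      refine (pow_le_pow_iff_left₀ n2 n1 two_ne_zero).1 ?_
      rw [h1, h2]; nlinarith
    have : 0 ≤ Real.log (‖t - 1‖ / ‖t + 1‖) := by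
      rcases n2.eq_or_lt with h0 | h0
      · rw [← h0]; simp
      · exact Real.log_nonneg (by rw [le_div_iff₀ h0]; linarith)
    exact mul_nonpos_of_nonneg_of_nonpos this h

lemma Jf_re_nonpos (B C t : ℂ) : (Jf B C t).re ≤ 0 := by
  rw [Jf_re]
  have h := log_mul_re_nonpos t
  have : Real.log (‖t - 1‖ / ‖t + 1‖) / ‖Fs B C t‖ * t.re =
      (Real.log (‖t - 1‖ / ‖t + 1‖) * t.re) / ‖Fs B C t‖ := by ring
  rw [this]
  exact div_nonpos_of_nonpos_of_nonneg h (norm_nonneg _)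

lemma ball_bounds {t : ℂ} (ht : t ∈ Metric.ball (1 / 2 : ℂ) (1 / 4)) :
    1 / 4 ≤ t.re ∧ ‖t‖ ≤ 1 ∧ Real.log (‖t - 1‖ / ‖t + 1‖) ≤ -(1 / 8) := by
  rw [Metric.mem_ball, dist_eq_norm] at ht
  have hre : |(t - 1 / 2).re| ≤ 1 / 4 := (Complex.abs_re_le_norm _).trans ht.le
  have him : |(t - 1 / 2).im| ≤ 1 / 4 := (Complex.abs_im_le_norm _).trans ht.le
  have e1 : (t - 1 / 2).re = t.re - 1 / 2 := by simp
  have e2 : (t - 1 / 2).im = t.im := by simp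
  rw [e1] at hre
  rw [e2] at him
  rw [abs_le] at hre him
  have h1 := norm_sub_one_sq t
  have h2 := norm_add_one_sq t
  have n1 := norm_nonneg (t - 1)
  have n2 := norm_nonneg (t + 1)
  have him2 : t.im ^ 2 ≤ 1 / 16 := by nlinarith
  refine ⟨by linarith, ?_, ?_⟩
  · have h3 : ‖t‖ ^ 2 = t.re ^ 2 + t.im ^ 2 := by
      rw [← Complex.normSq_eq_norm_sq, Complex.normSq_apply]; ring
    have h4 : ‖t‖ ^ 2 ≤ 1 ^ 2 := by rw [h3]; nlinarith
    exact (pow_le_pow_iff_left₀ (norm_nonneg _) zero_le_one two_ne_zero).1 h4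
  · have hp2 : 0 < ‖t + 1‖ := by
      rcases n2.eq_or_lt with h0 | h0
      · rw [← h0] at h2; nlinarith
      · exact h0
    have hp1 : 0 < ‖t - 1‖ := by
      rcases n1.eq_or_lt with h0 | h0
      · rw [← h0] at h1; nlinarith
      · exact h0
    have hq : ‖t - 1‖ / ‖t + 1‖ ≤ 7 / 8 := by
      rw [div_le_iff₀ hp2]
      refine (pow_le_pow_iff_left₀ n1 (by positivity) two_ne_zero).1 ?_
      rw [mul_pow, h1, h2]
      nlinarith
    have := Real.log_le_sub_one_of_pos (div_pos hp1 hp2)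
    linarith

theorem t_D : S_D := by
  intro B₀ C₀ hB0 hB1 hC0 hC1 hBC
  -- the separation
  have p1 : 0 < ‖B₀‖ := norm_pos_iff.2 hB0
  have p2 : 0 < ‖C₀‖ := norm_pos_iff.2 hC0
  have p3 : 0 < ‖B₀ - 1‖ := norm_pos_iff.2 (sub_ne_zero.2 hB1)
  have p4 : 0 < ‖C₀ - 1‖ := norm_pos_iff.2 (sub_ne_zero.2 hC1)
  have p5 : 0 < ‖B₀ - C₀‖ := norm_pos_iff.2 (sub_ne_zero.2 hBC)
  obtain ⟨s, hs, hs1, q1, q2, q3, q4, q5⟩ : ∃ s : ℝ, 0 < s ∧ s ≤ 1 ∧ 2 * s ≤ ‖B₀‖ ∧ 2 * s ≤ ‖C₀‖ ∧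
      2 * s ≤ ‖B₀ - 1‖ ∧ 2 * s ≤ ‖C₀ - 1‖ ∧ 2 * s ≤ ‖B₀ - C₀‖ := by
    refine ⟨min 1 (min (min ‖B₀‖ ‖C₀‖) (min (min ‖B₀ - 1‖ ‖C₀ - 1‖) ‖B₀ - C₀‖) / 2), ?_, ?_, ?_, ?_,
      ?_, ?_, ?_⟩
    · positivity
    · exact min_le_left _ _
    all_goals
      have hm := min_le_right 1 (min (min ‖B₀‖ ‖C₀‖) (min (min ‖B₀ - 1‖ ‖C₀ - 1‖) ‖B₀ - C₀‖) / 2)
      have m1 := min_le_left (min ‖B₀‖ ‖C₀‖) (min (min ‖B₀ - 1‖ ‖C₀ - 1‖) ‖B₀ - C₀‖)
      have m2 := min_le_right (min ‖B₀‖ ‖C₀‖) (min (min ‖B₀ - 1‖ ‖C₀ - 1‖) ‖B₀ - C₀‖)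
      have m3 := min_le_left ‖B₀‖ ‖C₀‖
      have m4 := min_le_right ‖B₀‖ ‖C₀‖
      have m5 := min_le_left (min ‖B₀ - 1‖ ‖C₀ - 1‖) ‖B₀ - C₀‖
      have m6 := min_le_right (min ‖B₀ - 1‖ ‖C₀ - 1‖) ‖B₀ - C₀‖
      have m7 := min_le_left ‖B₀ - 1‖ ‖C₀ - 1‖
      have m8 := min_le_right ‖B₀ - 1‖ ‖C₀ - 1‖
      linarith
  set R : ℝ := 4 + 2 * ‖B₀‖ + 2 * ‖C₀‖ with hRdef
  have hR : 0 < R := by positivity
  have hR4 : 4 ≤ R := by have := p1; have := p2; linarith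
  set C1 : ℝ := R * ((2 / s) ^ 2 * (2 * s)⁻¹) with hC1def
  have hC1 : 0 ≤ C1 := by positivity
  set c1 : ℝ := 2 * (2 + ‖B₀‖) * (2 + ‖C₀‖) with hc1
  have hc1p : 0 < c1 := by positivity
  set κ : ℝ := volume.real (Metric.ball (1 / 2 : ℂ) (1 / 4)) * (1 / (32 * c1)) with hκ
  have hvol : 0 < volume.real (Metric.ball (1 / 2 : ℂ) (1 / 4)) := by
    refine ENNReal.toReal_pos ?_ ?_
    · exact (Metric.measure_ball_pos volume _ (by norm_num)).ne'
    · exact measure_ball_lt_top.ne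
  have hκp : 0 < κ := by positivity
  set KK : ℝ := 4 * C1 * (2 * R + 1) * (1 + Fintype.card (Fin 6)) + 2 * 64 with hKK
  refine ⟨s / 2, κ, KK * ((∫ t : ℂ, (1 + ‖t‖) ^ (-(3 : ℝ))) +
    Fintype.card (Fin 6) * ∫ x, phi (2 * R) x), by positivity, hκp, fun B C hB hC => ?_⟩
  -- consequences of closeness
  have tri : ∀ x y z : ℂ, ‖x - z‖ ≤ ‖x - y‖ + ‖y - z‖ := fun x y z => norm_sub_le_norm_sub_add_norm_sub x y z
  have hBn : s ≤ ‖B‖ := by
    have := norm_sub_norm_le B₀ B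
    rw [norm_sub_rev] at this
    linarith
  have hCn : s ≤ ‖C‖ := by
    have := norm_sub_norm_le C₀ C
    rw [norm_sub_rev] at this
    linarith
  have hBu : ‖B‖ ≤ ‖B₀‖ + 1 := by
    have := norm_sub_norm_le B B₀
    linarith
  have hCu : ‖C‖ ≤ ‖C₀‖ + 1 := by
    have := norm_sub_norm_le C C₀
    linarith
  have hB1' : s ≤ ‖B - 1‖ := by
    have := tri B₀ B 1
    rw [norm_sub_rev B₀ B] at this
    linarith
  have hC1' : s ≤ ‖C - 1‖ := by
    have := tri C₀ C 1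
    rw [norm_sub_rev C₀ C] at this
    linarith
  have hBC' : s ≤ ‖B - C‖ := by
    have h1 := tri B₀ B C₀
    have h2 := tri B C C₀
    rw [norm_sub_rev B₀ B] at h1
    linarith
  obtain ⟨b, hb⟩ := IsAlgClosed.exists_pow_nat_eq B (n := 2) (by norm_num)
  obtain ⟨c, hc⟩ := IsAlgClosed.exists_pow_nat_eq C (n := 2) (by norm_num)
  have hsq : ∀ (z Z : ℂ), z ^ 2 = Z → s ≤ ‖Z‖ → s ≤ ‖z‖ := by
    intro z Z h1 h2
    rw [← h1, norm_pow] at h2
    by_contra h3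
    push Not at h3
    nlinarith [norm_nonneg z]
  have hbs : s ≤ ‖b‖ := hsq b B hb hBn
  have hcs : s ≤ ‖c‖ := hsq c C hc hCn
  have hbu : ‖b‖ ≤ R / 2 := by
    have h1 : ‖b‖ ^ 2 ≤ (1 + ‖B₀‖) ^ 2 := by
      rw [← norm_pow, hb]; nlinarith
    have := (pow_le_pow_iff_left₀ (norm_nonneg _) (by positivity) two_ne_zero).1 h1
    linarith
  have hcu : ‖c‖ ≤ R / 2 := by
    have h1 : ‖c‖ ^ 2 ≤ (1 + ‖C₀‖) ^ 2 := by
      rw [← norm_pow, hc]; nlinarith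
    have := (pow_le_pow_iff_left₀ (norm_nonneg _) (by positivity) two_ne_zero).1 h1
    linarith
  set r : Fin 6 → ℂ := ![1, -1, b, -b, c, -c] with hr
  have hrR : ∀ i, ‖r i‖ ≤ R / 2 := by
    intro i
    fin_cases i <;> simp [hr] <;> linarith
  -- the function
  have hJn : ∀ t, ‖Jf B C t‖ = |Real.log (‖t - r 0‖ / ‖t - r 1‖)| * (‖t‖ / ‖Fs B C t‖) := by
    intro t
    unfold Jf
    rw [norm_mul, Complex.norm_real, Real.norm_eq_abs, abs_div, abs_norm]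
    simp only [hr, Matrix.cons_val_zero, Matrix.cons_val_one, sub_neg_eq_add]
    ring
  have hFn : ∀ t, ‖Fs B C t‖ = ‖t ^ 2 - 1‖ * ‖t ^ 2 - B‖ * ‖t ^ 2 - C‖ := by
    intro t
    unfold Fs
    rw [norm_mul, norm_mul]
  have hha : ∀ t, (∀ i, t ≠ r i) → ‖t‖ ≤ R → ‖t‖ / ‖Fs B C t‖ ≤ C1 * ∑ i, ‖t - r i‖⁻¹ := by
    intro t ht htR
    have g0 : t ≠ 1 := by simpa [hr] using ht 0
    have g1 : t ≠ -1 := by simpa [hr] using ht 1
    have g2 : t ≠ b := by simpa [hr] using ht 2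
    have g3 : t ≠ -b := by simpa [hr] using ht 3
    have g4 : t ≠ c := by simpa [hr] using ht 4
    have g5 : t ≠ -c := by simpa [hr] using ht 5
    have k1 := inv_sq_le (b := 1) (t := t) hs (by simpa using hs1) g0 (by simpa using g1)
    have k2 := inv_sq_le (b := b) (t := t) hs hbs g2 g3
    have k3 := inv_sq_le (b := c) (t := t) hs hcs g4 g5
    have hnz : ∀ z : ℂ, t ≠ z → t ≠ -z → t ^ 2 ≠ z ^ 2 := by
      intro z h1 h2 h3
      rcases sq_eq_sq_iff_eq_or_eq_neg.1 h3 with h | h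
      · exact h1 h
      · exact h2 h
    have k0 := inv_prod_le (ι := Fin 3) (![1, B, C]) hs (by
      intro i j hij
      fin_cases i <;> fin_cases j <;> simp at hij ⊢
      · rw [norm_sub_rev]; exact hB1'
      · rw [norm_sub_rev]; exact hC1'
      · exact hB1'
      · exact hBC'
      · exact hC1'
      · rw [norm_sub_rev]; exact hBC') (t := t ^ 2) (by
      intro i
      fin_cases i
      · simpa using hnz 1 g0 g1
      · simpa [hb] using hnz b g2 g3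
      · simpa [hc] using hnz c g4 g5)
    simp only [Fin.prod_univ_three, Fin.sum_univ_three, Matrix.cons_val_zero, Matrix.cons_val_one,
      Matrix.cons_val_two, Matrix.head_cons, Matrix.tail_cons, Fintype.card_fin] at k0
    rw [one_pow] at k1
    rw [hb] at k2
    rw [hc] at k3
    rw [div_eq_mul_inv, hFn]
    have hsum : ∑ i, ‖t - r i‖⁻¹ = (‖t - 1‖⁻¹ + ‖t - -1‖⁻¹) + (‖t - b‖⁻¹ + ‖t - -b‖⁻¹) +
        (‖t - c‖⁻¹ + ‖t - -c‖⁻¹) := by
      rw [Fin.sum_univ_six]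
      simp [hr]
      ring
    calc ‖t‖ * (‖t ^ 2 - 1‖ * ‖t ^ 2 - B‖ * ‖t ^ 2 - C‖)⁻¹
        ≤ R * ((2 / s) ^ 2 * (‖t ^ 2 - 1‖⁻¹ + ‖t ^ 2 - B‖⁻¹ + ‖t ^ 2 - C‖⁻¹)) := by
          refine mul_le_mul htR ?_ (by positivity) hR.le
          simpa using k0
      _ ≤ R * ((2 / s) ^ 2 * ((2 * s)⁻¹ * (‖t - 1‖⁻¹ + ‖t - -1‖⁻¹) +
          (2 * s)⁻¹ * (‖t - b‖⁻¹ + ‖t - -b‖⁻¹) + (2 * s)⁻¹ * (‖t - c‖⁻¹ + ‖t - -c‖⁻¹))) := by
          refine mul_le_mul_of_nonneg_left ?_ hR.le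
          refine mul_le_mul_of_nonneg_left ?_ (by positivity)
          linarith
      _ = C1 * ∑ i, ‖t - r i‖⁻¹ := by
          rw [hsum, hC1def]; ring
  have hhb : ∀ t : ℂ, R < ‖t‖ → ‖t‖ / ‖Fs B C t‖ ≤ 64 * (1 + ‖t‖) ^ (-(3 : ℝ)) := by
    intro t htR
    have ht1 : 1 ≤ ‖t‖ := by linarith
    have ht0 : 0 < ‖t‖ := by linarith
    have hsqR : ∀ a : ℂ, ‖a‖ ≤ ‖B₀‖ + ‖C₀‖ + 1 → ‖t‖ ^ 2 / 2 ≤ ‖t ^ 2 - a‖ := by
      intro a ha
      have h1 := norm_sub_norm_le (t ^ 2) a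
      rw [norm_pow] at h1
      have h2 : 4 * ‖t‖ ≤ ‖t‖ ^ 2 := by nlinarith
      nlinarith
    have w1 : ‖t‖ ^ 2 / 2 ≤ ‖t ^ 2 - 1‖ := hsqR 1 (by simp; positivity)
    have w2 : ‖t‖ ^ 2 / 2 ≤ ‖t ^ 2 - B‖ := hsqR B (by linarith)
    have w3 : ‖t‖ ^ 2 / 2 ≤ ‖t ^ 2 - C‖ := hsqR C (by linarith)
    have hF : ‖t‖ ^ 6 / 8 ≤ ‖Fs B C t‖ := by
      rw [hFn]
      calc ‖t‖ ^ 6 / 8 = (‖t‖ ^ 2 / 2) * (‖t‖ ^ 2 / 2) * (‖t‖ ^ 2 / 2) := by ring
        _ ≤ ‖t ^ 2 - 1‖ * ‖t ^ 2 - B‖ * ‖t ^ 2 - C‖ := by gcongr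
    have hh := tail_of ht1 (C := 8) (by norm_num) (h := ‖t‖ / ‖Fs B C t‖) (by
      calc ‖t‖ / ‖Fs B C t‖ ≤ ‖t‖ / (‖t‖ ^ 6 / 8) :=
            div_le_div_of_nonneg_left ht0.le (by positivity) hF
        _ = 8 / ‖t‖ ^ 5 := by field_simp
        _ ≤ 8 / ‖t‖ ^ 3 := by
            refine div_le_div_of_nonneg_left (by norm_num) (by positivity) ?_
            exact pow_le_pow_right₀ ht1 (by norm_num))
    calc ‖t‖ / ‖Fs B C t‖ ≤ 8 * 8 * (1 + ‖t‖) ^ (-(3 : ℝ)) := hh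
      _ = 64 * (1 + ‖t‖) ^ (-(3 : ℝ)) := by norm_num
  have hbound : ∀ᵐ t : ℂ, ‖Jf B C t‖ ≤ KK * Maj (2 * R) r t := by
    filter_upwards [ae_ne r] with t ht
    rw [hJn]
    exact log_mul_le hR hrR hC1 (by norm_num) ht (by positivity) (hha t ht) (hhb t) 0 1
  have hMint : Integrable (fun t => KK * Maj (2 * R) r t) :=
    (integrable_Maj (by positivity) r).const_mul KK
  have hmeas : AEStronglyMeasurable (Jf B C) := by
    refine Measurable.aestronglyMeasurable ?_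
    unfold Jf Fs
    fun_prop
  have hint : Integrable (Jf B C) := hMint.mono' hmeas hbound
  refine ⟨hint, ?_, ?_⟩
  · have hre : (∫ t, Jf B C t).re = ∫ t, (Jf B C t).re := by
      have := Complex.reCLM.integral_comp_comm hint
      simpa using this.symm
    have hre_int : Integrable (fun t => (Jf B C t).re) := by
      have := Complex.reCLM.integrable_comp hint
      simpa using this
    rw [hre]
    have h1 : ∫ t in Metric.ball (1 / 2 : ℂ) (1 / 4), -(Jf B C t).re ≤ ∫ t, -(Jf B C t).re :=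
      setIntegral_le_integral hre_int.neg
        (Filter.Eventually.of_forall fun t => by
          have := Jf_re_nonpos B C t
          simp only [Pi.zero_apply]
          linarith)
    have h2 : κ ≤ ∫ t in Metric.ball (1 / 2 : ℂ) (1 / 4), -(Jf B C t).re := by
      have h3 : κ = ∫ t in Metric.ball (1 / 2 : ℂ) (1 / 4), (1 / (32 * c1)) := by
        rw [setIntegral_const, smul_eq_mul]
      rw [h3]
      refine integral_mono_ae ?_ hre_int.neg.integrableOn ?_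
      · exact integrableOn_const measure_ball_lt_top.ne
      · have h4 : ∀ᵐ t ∂(volume.restrict (Metric.ball (1 / 2 : ℂ) (1 / 4))),
            t ∈ Metric.ball (1 / 2 : ℂ) (1 / 4) := ae_restrict_mem Metric.isOpen_ball.measurableSet
        filter_upwards [h4, ae_restrict_of_ae (ae_ne r)] with t htb htr
        obtain ⟨b1, b2, b3⟩ := ball_bounds htb
        have hnz : ∀ z : ℂ, t ≠ z → t ≠ -z → t ^ 2 ≠ z ^ 2 := by
          intro z h1 h2 h3
          rcases sq_eq_sq_iff_eq_or_eq_neg.1 h3 with h | h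
          · exact h1 h
          · exact h2 h
        have g0 : t ≠ 1 := by simpa [hr] using htr 0
        have g1 : t ≠ -1 := by simpa [hr] using htr 1
        have g2 : t ≠ b := by simpa [hr] using htr 2
        have g3 : t ≠ -b := by simpa [hr] using htr 3
        have g4 : t ≠ c := by simpa [hr] using htr 4
        have g5 : t ≠ -c := by simpa [hr] using htr 5
        have hFpos : 0 < ‖Fs B C t‖ := by
          rw [hFn]
          have z1 : 0 < ‖t ^ 2 - 1‖ := norm_pos_iff.2 (sub_ne_zero.2 (by simpa using hnz 1 g0 g1))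
          have z2 : 0 < ‖t ^ 2 - B‖ := norm_pos_iff.2 (sub_ne_zero.2 (hb ▸ hnz b g2 g3))
          have z3 : 0 < ‖t ^ 2 - C‖ := norm_pos_iff.2 (sub_ne_zero.2 (hc ▸ hnz c g4 g5))
          positivity
        have hFle : ‖Fs B C t‖ ≤ c1 := by
          rw [hFn, hc1]
          have ht2 : ‖t ^ 2‖ ≤ 1 := by rw [norm_pow]; exact pow_le_one₀ (norm_nonneg _) b2
          have y1 : ‖t ^ 2 - 1‖ ≤ 2 := by
            have := norm_sub_le (t ^ 2) 1
            rw [norm_one] at this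
            linarith
          have y2 : ‖t ^ 2 - B‖ ≤ 2 + ‖B₀‖ := by
            have := norm_sub_le (t ^ 2) B
            linarith
          have y3 : ‖t ^ 2 - C‖ ≤ 2 + ‖C₀‖ := by
            have := norm_sub_le (t ^ 2) C
            linarith
          gcongr
        rw [Jf_re]
        have e1 : -(Real.log (‖t - 1‖ / ‖t + 1‖) / ‖Fs B C t‖ * t.re) =
            (-Real.log (‖t - 1‖ / ‖t + 1‖)) * t.re / ‖Fs B C t‖ := by ring
        rw [e1]
        have e2 : 1 / 32 ≤ (-Real.log (‖t - 1‖ / ‖t + 1‖)) * t.re := by nlinarith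
        calc 1 / (32 * c1) = (1 / 32) / c1 := by field_simp
          _ ≤ (1 / 32) / ‖Fs B C t‖ := div_le_div_of_nonneg_left (by norm_num) hFpos hFle
          _ ≤ (-Real.log (‖t - 1‖ / ‖t + 1‖)) * t.re / ‖Fs B C t‖ :=
              div_le_div_of_nonneg_right e2 hFpos.le
    have h5 : ∫ t, -(Jf B C t).re = -∫ t, (Jf B C t).re := integral_neg _
    rw [h5] at h1
    linarith
  · have h1 := norm_integral_le_of_norm_le hMint hbound
    refine h1.trans (le_of_eq ?_)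
    rw [integral_const_mul, integral_Maj (by positivity) r]

end Run7.h298.EE


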