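import Pool.Agent.Run7.h153.EE.Iface
import Pool.Agent.Run7.h298.EE.Tool

/-!
# Piece H of the project EE of helper153 (MP_b2b689_ag)
-/

set_option autoImplicit false

open MeasureTheory Polynomial

namespace Run7.h298.EE

open Run7.h153.EE

variable {ι : Type} [Fintype ι]

lemma exists_sep (r : ι → ℂ) (hr : Function.Injective r) :
    ∃ s : ℝ, 0 < s ∧ ∀ i j, i ≠ j → s ≤ ‖r i - r j‖ := by
  classical
  rcases (Finset.univ : Finset ι).offDiag.eq_empty_or_nonempty with h | h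
  · refine ⟨1, one_pos, fun i j hij => ?_⟩
    have : (i, j) ∈ (Finset.univ : Finset ι).offDiag := by simp [hij]
    rw [h] at this
    simp at this
  · obtain ⟨p, hp, hmin⟩ := Finset.exists_min_image _ (fun p : ι × ι => ‖r p.1 - r p.2‖) h
    rw [Finset.mem_offDiag] at hp
    refine ⟨‖r p.1 - r p.2‖, norm_pos_iff.2 (sub_ne_zero.2 fun he => hp.2.2 (hr he)),
      fun i j hij => ?_⟩
    exact hmin (i, j) (by simp [hij])

lemma intg [Nonempty ι] {a : ℝ} (ha : 0 < a) {r : ι → ℂ} (hr : Function.Injective r) {m : ℕ}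
    (hcard : Fintype.card ι = m + 4) {ω : ℂ → ℝ} (hω : Measurable ω) (h0 : ∀ x, 0 ≤ ω x) {Cω : ℝ}
    (hC0 : 0 ≤ Cω) (hC : ∀ x, ω x ≤ Cω * (1 + ‖x‖) ^ m) (i1 i2 : ι) :
    Integrable (fun x : ℂ => ω x / (a * ∏ i, ‖x - r i‖)) ∧
    Integrable (fun x : ℂ => Real.log (‖x - r i1‖ / ‖x - r i2‖) * ω x / (a * ∏ i, ‖x - r i‖)) := by
  obtain ⟨s, hs, hsep⟩ := exists_sep r hr
  set R : ℝ := 1 + 2 * ∑ i, ‖r i‖ with hRdef
  have hsum : 0 ≤ ∑ i, ‖r i‖ := Finset.sum_nonneg fun i _ => norm_nonneg _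
  have hR : 0 < R := by positivity
  have hR1 : 1 ≤ R := by linarith
  have hrR : ∀ i, ‖r i‖ ≤ R / 2 := by
    intro i
    have := Finset.single_le_sum (f := fun i => ‖r i‖) (fun i _ => norm_nonneg _)
      (Finset.mem_univ i)
    linarith
  set C1 : ℝ := Cω * (1 + R) ^ m * (a⁻¹ * (2 / s) ^ (Fintype.card ι - 1)) with hC1def
  have hC1 : 0 ≤ C1 := by positivity
  set C3 : ℝ := Cω * 2 ^ m * 2 ^ (m + 4) / a with hC3def
  have hC3 : 0 ≤ C3 := by positivity
  have hpr : ∀ x, 0 ≤ ∏ i, ‖x - r i‖ := fun x => Finset.prod_nonneg fun i _ => norm_nonneg _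
  have hh0 : ∀ x, 0 ≤ ω x / (a * ∏ i, ‖x - r i‖) := fun x =>
    div_nonneg (h0 x) (mul_nonneg ha.le (hpr x))
  have hha : ∀ x, (∀ i, x ≠ r i) → ‖x‖ ≤ R →
      ω x / (a * ∏ i, ‖x - r i‖) ≤ C1 * ∑ i, ‖x - r i‖⁻¹ := by
    intro x hx hxR
    have h1 : ω x ≤ Cω * (1 + R) ^ m := by
      refine (hC x).trans (mul_le_mul_of_nonneg_left ?_ hC0)
      exact pow_le_pow_left₀ (by positivity) (by linarith) m
    have h2 := inv_prod_le r hs hsep hx
    rw [div_eq_mul_inv, mul_inv]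
    calc ω x * (a⁻¹ * (∏ i, ‖x - r i‖)⁻¹)
        ≤ (Cω * (1 + R) ^ m) * (a⁻¹ * ((2 / s) ^ (Fintype.card ι - 1) * ∑ i, ‖x - r i‖⁻¹)) := by
          refine mul_le_mul h1 ?_ ?_ (by positivity)
          · exact mul_le_mul_of_nonneg_left h2 (by positivity)
          · have := hpr x
            positivity
      _ = C1 * ∑ i, ‖x - r i‖⁻¹ := by rw [hC1def]; ring
  have hhb : ∀ x, R < ‖x‖ → ω x / (a * ∏ i, ‖x - r i‖) ≤ (8 * C3) * (1 + ‖x‖) ^ (-(3 : ℝ)) := by
    intro x hxR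
    have hx1 : 1 ≤ ‖x‖ := by linarith
    have hx0 : 0 < ‖x‖ := by linarith
    have hlow : (‖x‖ / 2) ^ (m + 4) ≤ ∏ i, ‖x - r i‖ := by
      have : (‖x‖ / 2) ^ (m + 4) = ∏ _i : ι, (‖x‖ / 2) := by
        rw [Finset.prod_const, Finset.card_univ, hcard]
      rw [this]
      refine Finset.prod_le_prod (fun i _ => by positivity) fun i _ => ?_
      have := norm_sub_norm_le x (r i)
      linarith [hrR i]
    have hup : ω x ≤ Cω * (2 * ‖x‖) ^ m := by
      refine (hC x).trans (mul_le_mul_of_nonneg_left ?_ hC0)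
      exact pow_le_pow_left₀ (by positivity) (by linarith) m
    refine tail_of hx1 hC3 ?_
    calc ω x / (a * ∏ i, ‖x - r i‖)
        ≤ (Cω * (2 * ‖x‖) ^ m) / (a * (‖x‖ / 2) ^ (m + 4)) :=
          div_le_div₀ (by positivity) hup (by positivity)
            (mul_le_mul_of_nonneg_left hlow ha.le)
      _ = C3 / ‖x‖ ^ 4 := by
          rw [hC3def, mul_pow, div_pow, pow_add ‖x‖ m 4]
          field_simp
      _ ≤ C3 / ‖x‖ ^ 3 := by
          refine div_le_div_of_nonneg_left hC3 (by positivity) ?_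
          exact pow_le_pow_right₀ hx1 (by norm_num)
  have hmP : Measurable (fun x : ℂ => a * ∏ i, ‖x - r i‖) := by fun_prop
  have hmL : Measurable (fun x : ℂ => Real.log (‖x - r i1‖ / ‖x - r i2‖)) := by fun_prop
  constructor
  · refine ((integrable_Maj (ρ := 2 * R) (by positivity) r).const_mul
      (C1 * (2 * R + 1) + 8 * C3)).mono' (hω.div hmP).aestronglyMeasurable ?_
    filter_upwards [ae_ne r] with x hx
    rw [Real.norm_eq_abs, abs_of_nonneg (hh0 x)]
    exact le_Maj hR hrR hC1 (by positivity) hx (hha x hx) (hhb x)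
  · refine ((integrable_Maj (ρ := 2 * R) (by positivity) r).const_mul
      (4 * C1 * (2 * R + 1) * (1 + Fintype.card ι) + 2 * (8 * C3))).mono'
      ((hmL.mul hω).div hmP).aestronglyMeasurable ?_
    filter_upwards [ae_ne r] with x hx
    rw [Real.norm_eq_abs, mul_div_assoc, abs_mul, abs_of_nonneg (hh0 x)]
    exact log_mul_le hR hrR hC1 (by positivity) hx (hh0 x) (hha x hx) (hhb x) i1 i2

theorem t_H : S_H := by
  intro g D hg hD hdeg e₁ e₂ he hz1 hz2
  classical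
  have hD0 : D ≠ 0 := hD.ne_zero
  have hsep : D.Separable := (PerfectField.separable_iff_squarefree).2 hD
  have hnodup : D.roots.Nodup := nodup_roots hsep
  let ι : Type := {x : ℂ // x ∈ D.roots.toFinset}
  let r : ι → ℂ := fun i => i.1
  have hrinj : Function.Injective r := Subtype.val_injective
  have m1 : e₁ ∈ D.roots.toFinset := by
    rw [Multiset.mem_toFinset, mem_roots hD0]; exact hz1
  have m2 : e₂ ∈ D.roots.toFinset := by
    rw [Multiset.mem_toFinset, mem_roots hD0]; exact hz2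
  let i1 : ι := ⟨e₁, m1⟩
  let i2 : ι := ⟨e₂, m2⟩
  have : Nonempty ι := ⟨i1⟩
  have hcard0 : Multiset.card D.roots = D.natDegree :=
    (splits_iff_card_roots).1 (IsAlgClosed.splits D)
  have hcard : Fintype.card ι = (2 * g - 2) + 4 := by
    have h1 : Fintype.card ι = D.roots.toFinset.card := Fintype.card_coe _
    rw [h1, Multiset.toFinset_card_of_nodup hnodup, hcard0, hdeg]
    omega
  set a : ℝ := ‖D.leadingCoeff‖ with hadef
  have ha : 0 < a := norm_pos_iff.2 (leadingCoeff_ne_zero.2 hD0)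
  have hDn : ∀ x, ‖D.eval x‖ = a * ∏ i, ‖x - r i‖ := by
    intro x
    have h1 := C_leadingCoeff_mul_prod_multiset_X_sub_C hcard0
    have h2 : D.eval x = D.leadingCoeff * ∏ i, (x - r i) := by
      conv_lhs => rw [← h1]
      rw [eval_mul, eval_C, eval_multiset_prod, Multiset.map_map]
      congr 1
      have h3 : ∏ i, (x - r i) = ∏ y ∈ D.roots.toFinset, (x - y) :=
        Finset.prod_coe_sort D.roots.toFinset (fun y => x - y)
      rw [h3, Finset.prod, Multiset.toFinset_val, Multiset.dedup_eq_self.2 hnodup]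
      congr 1
      refine Multiset.map_congr rfl fun y _ => ?_
      simp
    rw [h2, norm_mul, norm_prod]
  constructor
  · intro k l hk hl
    have hω : Measurable (fun x : ℂ => ‖x‖ ^ (k + l)) := by fun_prop
    have h := (intg ha hrinj hcard hω (fun x => by positivity) (Cω := 1) zero_le_one
      (fun x => by
        rw [one_mul]
        calc ‖x‖ ^ (k + l) ≤ (1 + ‖x‖) ^ (k + l) :=
              pow_le_pow_left₀ (norm_nonneg _) (by linarith) _
          _ ≤ (1 + ‖x‖) ^ (2 * g - 2) :=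
              pow_le_pow_right₀ (by linarith [norm_nonneg x]) (by omega)) i1 i2).2
    refine h.mono ?_ (Filter.Eventually.of_forall fun x => ?_)
    · refine Measurable.aestronglyMeasurable ?_
      have hDm : Measurable (fun x : ℂ => D.eval x) := D.continuous.measurable
      fun_prop
    · rw [← hDn]
      simp only [norm_mul, norm_div, Complex.norm_real, Real.norm_eq_abs, norm_pow, abs_div,
        abs_mul, abs_pow, abs_norm, RCLike.norm_conj, r, i1, i2]
      refine le_of_eq ?_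
      rw [pow_add]
      ring
  · intro c
    by_contra hcon
    push Not at hcon
    set ρ : ℝ := Real.exp c with hρ
    have hρ0 : 0 < ρ := Real.exp_pos c
    have hb : ∀ e : ℂ, ∀ x : ℂ, ‖x - e‖ ^ 2 ≤ (1 + ‖e‖) ^ 2 * (1 + ‖x‖) ^ (2 * g - 2) := by
      intro e x
      have h1 : ‖x - e‖ ≤ (1 + ‖e‖) * (1 + ‖x‖) := by
        have := norm_sub_le x e
        nlinarith [norm_nonneg x, norm_nonneg e, mul_nonneg (norm_nonneg x) (norm_nonneg e)]
      calc ‖x - e‖ ^ 2 ≤ ((1 + ‖e‖) * (1 + ‖x‖)) ^ 2 := pow_le_pow_left₀ (norm_nonneg _) h1 2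
        _ = (1 + ‖e‖) ^ 2 * (1 + ‖x‖) ^ 2 := by ring
        _ ≤ _ := by
            refine mul_le_mul_of_nonneg_left ?_ (by positivity)
            exact pow_le_pow_right₀ (by linarith [norm_nonneg x]) (by omega)
    have hI : ∀ e : ℂ, Integrable (fun x : ℂ => ‖x - e‖ ^ 2 / ‖D.eval x‖) ∧
        Integrable (fun x : ℂ => Real.log (‖x - e₁‖ / ‖x - e₂‖) * ‖x - e‖ ^ 2 / ‖D.eval x‖) := by
      intro e
      have h := intg ha hrinj hcard (ω := fun x => ‖x - e‖ ^ 2) (by fun_prop)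
        (fun x => by positivity) (Cω := (1 + ‖e‖) ^ 2) (by positivity) (hb e) i1 i2
      simp only [hDn]
      exact h
    have hEq : ∀ e : ℂ, ∫ x : ℂ, Real.log (‖x - e₁‖ / ‖x - e₂‖) * ‖x - e‖ ^ 2 / ‖D.eval x‖ =
        c * ∫ x : ℂ, ‖x - e‖ ^ 2 / ‖D.eval x‖ := by
      intro e
      have h := hcon (X - C e) (by rw [natDegree_X_sub_C]; omega)
      simpa using h
    set N : ℂ → ℝ := fun x => (Real.log (‖x - e₁‖ / ‖x - e₂‖) - c) *
      (‖x - e₁‖ ^ 2 - ρ ^ 2 * ‖x - e₂‖ ^ 2) / ‖D.eval x‖ with hN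
    have hNeq : N = fun x => ((Real.log (‖x - e₁‖ / ‖x - e₂‖) * ‖x - e₁‖ ^ 2 / ‖D.eval x‖) -
        c * (‖x - e₁‖ ^ 2 / ‖D.eval x‖)) -
        ρ ^ 2 * ((Real.log (‖x - e₁‖ / ‖x - e₂‖) * ‖x - e₂‖ ^ 2 / ‖D.eval x‖) -
        c * (‖x - e₂‖ ^ 2 / ‖D.eval x‖)) := by
      funext x
      simp only [hN]
      ring
    have j1 : Integrable (fun x => (Real.log (‖x - e₁‖ / ‖x - e₂‖) * ‖x - e₁‖ ^ 2 / ‖D.eval x‖) -
        c * (‖x - e₁‖ ^ 2 / ‖D.eval x‖)) := (hI e₁).2.sub ((hI e₁).1.const_mul c)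
    have j2 : Integrable (fun x => (Real.log (‖x - e₁‖ / ‖x - e₂‖) * ‖x - e₂‖ ^ 2 / ‖D.eval x‖) -
        c * (‖x - e₂‖ ^ 2 / ‖D.eval x‖)) := (hI e₂).2.sub ((hI e₂).1.const_mul c)
    have hNint : Integrable N := by
      rw [hNeq]
      exact j1.sub (j2.const_mul (ρ ^ 2))
    have hN0 : ∫ x, N x = 0 := by
      rw [hNeq, integral_sub j1 (j2.const_mul (ρ ^ 2)), integral_const_mul,
        integral_sub (hI e₁).2 ((hI e₁).1.const_mul c),
        integral_sub (hI e₂).2 ((hI e₂).1.const_mul c), integral_const_mul, integral_const_mul,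
        hEq e₁, hEq e₂]
      ring
    have hsign : ∀ x, (∀ i, x ≠ r i) → 0 < ‖x - e₁‖ ∧ 0 < ‖x - e₂‖ ∧ 0 < ‖D.eval x‖ ∧
        (Real.log (‖x - e₁‖ / ‖x - e₂‖) - c = Real.log (‖x - e₁‖ / (ρ * ‖x - e₂‖))) := by
      intro x hx
      have a1 : 0 < ‖x - e₁‖ := norm_pos_iff.2 (sub_ne_zero.2 (hx i1))
      have a2 : 0 < ‖x - e₂‖ := norm_pos_iff.2 (sub_ne_zero.2 (hx i2))
      refine ⟨a1, a2, ?_, ?_⟩
      · rw [hDn]
        exact mul_pos ha (Finset.prod_pos fun i _ => norm_pos_iff.2 (sub_ne_zero.2 (hx i)))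
      · rw [Real.log_div a1.ne' a2.ne', Real.log_div a1.ne' (mul_pos hρ0 a2).ne',
          Real.log_mul hρ0.ne' a2.ne', hρ, Real.log_exp]
        ring
    have hNnn : ∀ᵐ x : ℂ, 0 ≤ N x := by
      filter_upwards [ae_ne r] with x hx
      obtain ⟨a1, a2, a3, a4⟩ := hsign x hx
      simp only [hN]
      rw [a4]
      refine div_nonneg ?_ a3.le
      have hq : 0 < ρ * ‖x - e₂‖ := mul_pos hρ0 a2
      rcases le_total (ρ * ‖x - e₂‖) ‖x - e₁‖ with h | h
      · refine mul_nonneg (Real.log_nonneg (by rw [le_div_iff₀ hq]; linarith)) ?_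
        nlinarith
      · refine mul_nonneg_of_nonpos_of_nonpos
          (Real.log_nonpos (by positivity) (div_le_one_of_le₀ h hq.le)) ?_
        nlinarith
    have hNz : N =ᵐ[volume] 0 := (integral_eq_zero_iff_of_nonneg_ae hNnn hNint).1 hN0
    -- but it is positive near `e₁`
    have hd : 0 < ‖e₁ - e₂‖ := norm_pos_iff.2 (sub_ne_zero.2 he)
    set ε : ℝ := ρ * ‖e₁ - e₂‖ / (2 * (1 + ρ)) with hε
    have hε0 : 0 < ε := by positivity
    have hεeq : ε * (2 * (1 + ρ)) = ρ * ‖e₁ - e₂‖ := by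
      rw [hε]; field_simp
    have hnot : ∀ᵐ x : ℂ, x ∉ Metric.ball e₁ ε := by
      filter_upwards [hNz, ae_ne r] with x hx0 hx hxb
      obtain ⟨a1, a2, a3, a4⟩ := hsign x hx
      rw [Metric.mem_ball, dist_eq_norm] at hxb
      have hq : 0 < ρ * ‖x - e₂‖ := mul_pos hρ0 a2
      have h1 : ‖e₁ - e₂‖ ≤ ‖x - e₁‖ + ‖x - e₂‖ := by
        have := norm_sub_le_norm_sub_add_norm_sub e₁ x e₂
        rw [norm_sub_rev e₁ x] at this
        exact this
      have h2 : ‖x - e₁‖ < ρ * ‖x - e₂‖ := by nlinarith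
      have h3 : Real.log (‖x - e₁‖ / (ρ * ‖x - e₂‖)) < 0 :=
        Real.log_neg (by positivity) (by rw [div_lt_one hq]; exact h2)
      have h4 : ‖x - e₁‖ ^ 2 - ρ ^ 2 * ‖x - e₂‖ ^ 2 < 0 := by nlinarith
      have h5 : 0 < N x := by
        simp only [hN]
        rw [a4]
        exact div_pos (mul_pos_of_neg_of_neg h3 h4) a3
      rw [hx0] at h5
      simp at h5
    have h6 : volume (Metric.ball e₁ ε) = 0 := by
      rw [ae_iff] at hnot
      have e : {x : ℂ | ¬ x ∉ Metric.ball e₁ ε} = Metric.ball e₁ ε := by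
        ext x
        simp only [not_not, Set.mem_ofPred_eq]
      rw [e] at hnot
      exact hnot
    exact (Metric.measure_ball_pos volume e₁ hε0).ne' h6

end Run7.h298.EE


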